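import Pool.Agent.H165.HW.Defs

/-!
Normals of a convex body of space, separation, and the certificate of a bad arc
(adapted from `Pool.Agent.H59.HTHN` and `Pool.Agent.H407.HTX`, without symmetry).
-/

set_option autoImplicit false

namespace Pool.Agent.H165.HW

open Pool.Agent.H332.HT (V2 V3 det P IP T C Full Good Bi)

/-- dot product of the plane -/
def dt (u v : V2) : ℝ := u.1 * v.1 + u.2 * v.2
/-- dot product of space -/
def ip (n x : V3) : ℝ := dt n.1 x.1 + n.2 * x.2
/-- the outer normals of `K` at `x` (including `0`) -/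
def NK (K : Set V3) (x : V3) : Set V3 := {n | ∀ y ∈ K, ip n y ≤ ip n x}

/-- Every linear functional of `V3` is `ip n` for some `n`. -/
theorem exists_ip (f : V3 →L[ℝ] ℝ) : ∃ n : V3, ∀ y : V3, f y = ip n y := by
  refine ⟨((f ((1, 0), 0), f ((0, 1), 0)), f ((0, 0), 1)), fun y => ?_⟩
  obtain ⟨⟨y1, y2⟩, y3⟩ := y
  have e : (((y1, y2), y3) : V3) = y1 • (((1, 0), 0) : V3) + y2 • (((0, 1), 0) : V3) +
      y3 • (((0, 0), 1) : V3) := by
    ext <;> simp
  rw [e, map_add, map_add, map_smul, map_smul, map_smul, ← e]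
  simp only [ip, dt, smul_eq_mul]
  ring

theorem exists_normal {K : Set V3} (hconvK : Convex ℝ K) (hinner : (interior K).Nonempty)
    {x : V3} (hx : x ∈ K) {d : V3} (hd : d ∉ C K x) :
    ∃ n : V3, n ≠ 0 ∧ n ∈ NK K x ∧ 0 ≤ ip n d := by
  have hopen : IsOpen (interior K) := isOpen_interior
  have hconv : Convex ℝ (interior K) := hconvK.interior
  obtain ⟨T, hT⟩ : ∃ T : Set V3, T = {y | ∃ t : ℝ, 0 < t ∧ y = x + t • d} := ⟨_, rfl⟩
  have hTc : Convex ℝ T := by
    rw [hT]
    rintro y ⟨t, ht, rfl⟩ z ⟨s, hs, rfl⟩ α β hα hβ hαβ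
    refine ⟨α * t + β * s, ?_, ?_⟩
    · rcases eq_or_lt_of_le hα with h0 | h0
      · rw [← h0, zero_add] at hαβ
        rw [← h0, hαβ, zero_mul, zero_add, one_mul]
        exact hs
      · have h1 : 0 < α * t := mul_pos h0 ht
        have h2 : 0 ≤ β * s := mul_nonneg hβ hs.le
        linarith
    · rw [smul_add, smul_add, smul_smul, smul_smul, add_smul]
      have h3 : x = α • x + β • x := by rw [← add_smul, hαβ, one_smul]
      conv_rhs => rw [h3]
      abel
  have hdisj : Disjoint (interior K) T := by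
    rw [Set.disjoint_left]
    intro y hy hyT
    rw [hT] at hyT
    obtain ⟨t, ht, rfl⟩ := hyT
    exact hd ⟨t, ht, hy⟩
  obtain ⟨f, u, hfu, huf⟩ := geometric_hahn_banach_open hconv hopen hTc hdisj
  have hKu : ∀ y ∈ K, f y ≤ u := by
    have h1 : closure (interior K) ⊆ {y | f y ≤ u} := by
      refine closure_minimal (fun y hy => (hfu y hy).le) ?_
      exact isClosed_le f.continuous continuous_const
    intro y hy
    apply h1
    rw [hconvK.closure_interior_eq_closure_of_nonempty_interior hinner]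
    exact subset_closure hy
  have hray : ∀ t : ℝ, 0 < t → u ≤ f x + t * f d := by
    intro t ht
    have h1 := huf (x + t • d) (by rw [hT]; exact ⟨t, ht, rfl⟩)
    rw [map_add, map_smul, smul_eq_mul] at h1
    exact h1
  have hux : u ≤ f x := by
    by_contra hcon
    push Not at hcon
    have h0 : 0 < |f d| + 1 := by positivity
    have h1 := hray ((u - f x) / (2 * (|f d| + 1))) (by
      apply div_pos (by linarith) (by positivity))
    have h2 : (u - f x) / (2 * (|f d| + 1)) * f d ≤ (u - f x) / 2 := by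
      have h3 : f d ≤ |f d| + 1 := by linarith [le_abs_self (f d)]
      have h4 : 0 ≤ (u - f x) / (2 * (|f d| + 1)) := by
        apply div_nonneg (by linarith) (by positivity)
      calc (u - f x) / (2 * (|f d| + 1)) * f d
          ≤ (u - f x) / (2 * (|f d| + 1)) * (|f d| + 1) := mul_le_mul_of_nonneg_left h3 h4
        _ = (u - f x) / 2 := by field_simp
    linarith
  have hfx : f x = u := le_antisymm (hKu x hx) hux
  obtain ⟨n, hn⟩ := exists_ip f
  refine ⟨n, ?_, ?_, ?_⟩
  · rintro rfl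
    obtain ⟨y, hy⟩ := hinner
    have h1 := hfu y hy
    rw [← hfx, hn, hn] at h1
    simp [ip, dt] at h1
  · intro y hy
    rw [← hn, ← hn, hfx]
    exact hKu y hy
  · rw [← hn]
    have h1 := hray 1 one_pos
    linarith

/-- The convex hull of a compact set of space is compact. -/
theorem cert_hull (S : Set V3) (hS : IsCompact S) : IsCompact (convexHull ℝ S) := by
  have hC : ∀ k : ℕ, IsCompact ((fun p : (Fin k → ℝ) × (Fin k → V3) => ∑ i, p.1 i • p.2 i) ''
      ((stdSimplex ℝ (Fin k)) ×ˢ (Set.univ.pi fun _ : Fin k => S))) := by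
    intro k
    refine ((isCompact_stdSimplex ℝ (Fin k)).prod (isCompact_univ_pi fun _ => hS)).image ?_
    fun_prop
  have e : convexHull ℝ S = ⋃ k ∈ Set.Iic 4,
      ((fun p : (Fin k → ℝ) × (Fin k → V3) => ∑ i, p.1 i • p.2 i) ''
      ((stdSimplex ℝ (Fin k)) ×ˢ (Set.univ.pi fun _ : Fin k => S))) := by
    apply Set.Subset.antisymm
    · intro x hx
      obtain ⟨ι, hι, z, w, hz, haff, hw, hw1, hx⟩ := eq_pos_convex_span_of_mem_convexHull hx
      have hcard : Fintype.card ι ≤ 4 := by
        have h3 : Module.finrank ℝ V3 = 3 := by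
          simp [V3, V2, Module.finrank_prod]
        refine haff.card_le_finrank_succ.trans (Nat.succ_le_succ ?_)
        refine le_trans (Submodule.finrank_le _) ?_
        exact h3.le
      let eq := Fintype.equivFin ι
      rw [Set.mem_iUnion₂]
      refine ⟨Fintype.card ι, hcard, (fun i => w (eq.symm i), fun i => z (eq.symm i)), ⟨⟨?_, ?_⟩, ?_⟩,
        ?_⟩
      · intro i
        exact (hw _).le
      · rw [← hw1]
        exact Equiv.sum_comp eq.symm w
      · intro i _
        exact hz ⟨_, rfl⟩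
      · rw [← hx]
        exact Equiv.sum_comp eq.symm fun i => w i • z i
    · intro x hx
      rw [Set.mem_iUnion₂] at hx
      obtain ⟨k, -, ⟨w, z⟩, ⟨⟨hw0, hw1⟩, hz⟩, rfl⟩ := hx
      exact (convex_convexHull ℝ S).sum_mem (fun i _ => hw0 i) hw1
        (fun i _ => subset_convexHull ℝ S (hz i (Set.mem_univ i)))
  rw [e]
  exact (Set.finite_Iic 4).isCompact_biUnion fun k _ => hC k

theorem ip_smul_left (c : ℝ) (n x : V3) : ip (c • n) x = c * ip n x := by
  unfold ip dt
  simp only [Prod.smul_fst, Prod.smul_snd, smul_eq_mul]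
  ring

/-- Linear functionals are products with a vector. -/
theorem cert_dual (f : V3 →L[ℝ] ℝ) : ∃ d : V3, ∀ n, ip n d = -f n := by
  refine ⟨((-f ((1, 0), 0), -f ((0, 1), 0)), -f ((0, 0), 1)), fun n => ?_⟩
  obtain ⟨⟨x, y⟩, z⟩ := n
  have e : (((x, y), z) : V3) = x • (((1, 0), 0) : V3) + y • (((0, 1), 0) : V3) +
      z • (((0, 0), 1) : V3) := by
    simp
  have h : f ((x, y), z) = x * f ((1, 0), 0) + y * f ((0, 1), 0) + z * f ((0, 0), 1) := by
    rw [e, map_add, map_add, map_smul, map_smul, map_smul]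
    simp only [smul_eq_mul]
  rw [h]
  unfold ip dt
  simp only
  ring

/-- A compact set `Y ⊆ K` is lit by one direction unless there are nonzero normals at points of
`Y` with sum zero. -/
theorem cert {K : Set V3} (_hcp : IsCompact K) (hcv : Convex ℝ K) (hne : (interior K).Nonempty)
    {Y : Set V3} (hY : IsCompact Y) (hYK : Y ⊆ K) (hbad : ¬ ∃ d : V3, ∀ x ∈ Y, d ∈ C K x) :
    ∃ (k : ℕ) (x n : Fin k → V3), 0 < k ∧ (∀ i, x i ∈ Y) ∧ (∀ i, n i ∈ NK K (x i)) ∧
      (∀ i, n i ≠ 0) ∧ ∑ i, n i = 0 := by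
  -- the set of unit normals over the arc
  obtain ⟨S, hSdef⟩ : ∃ S : Set V3, S = {n | ‖n‖ = 1 ∧ ∃ x ∈ Y, n ∈ NK K x} := ⟨_, rfl⟩
  have hcont : Continuous fun p : V3 × V3 => ip p.1 p.2 := by
    unfold ip dt
    fun_prop
  have hScomp : IsCompact S := by
    have hT : IsCompact ((Y ×ˢ Metric.sphere (0 : V3) 1) ∩
        {p : V3 × V3 | ∀ y ∈ K, ip p.2 y ≤ ip p.2 p.1}) := by
      refine (hY.prod (isCompact_sphere 0 1)).inter_right ?_
      have e : {p : V3 × V3 | ∀ y ∈ K, ip p.2 y ≤ ip p.2 p.1} =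
          ⋂ y ∈ K, {p : V3 × V3 | ip p.2 y ≤ ip p.2 p.1} := by
        ext p
        simp
      rw [e]
      refine isClosed_biInter fun y _ => ?_
      refine isClosed_le ?_ ?_
      · exact hcont.comp (f := fun p : V3 × V3 => (p.2, y)) (by fun_prop)
      · exact hcont.comp (f := fun p : V3 × V3 => (p.2, p.1)) (by fun_prop)
    have e : S = (fun p : V3 × V3 => p.2) '' ((Y ×ˢ Metric.sphere (0 : V3) 1) ∩
        {p : V3 × V3 | ∀ y ∈ K, ip p.2 y ≤ ip p.2 p.1}) := by
      rw [hSdef]
      apply Set.Subset.antisymm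
      · rintro n ⟨hn1, x, hx, hn⟩
        exact ⟨(x, n), ⟨⟨hx, by simpa using hn1⟩, hn⟩, rfl⟩
      · rintro _ ⟨⟨x, n⟩, ⟨⟨hx, hn1⟩, hn⟩, rfl⟩
        exact ⟨by simpa using hn1, x, hx, hn⟩
    rw [e]
    exact hT.image (by fun_prop)
  by_cases h0 : (0 : V3) ∈ convexHull ℝ S
  · -- the certificate
    obtain ⟨ι, hι, z, w, hz, -, hw, hw1, hsum⟩ := eq_pos_convex_span_of_mem_convexHull h0
    have hz' : ∀ i, z i ∈ S := fun i => hz ⟨i, rfl⟩
    rw [hSdef] at hz'
    choose hn1 x hx hn using hz'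
    let eq := Fintype.equivFin ι
    refine ⟨Fintype.card ι, fun i => x (eq.symm i),
      fun i => w (eq.symm i) • z (eq.symm i), ?_, fun i => hx _, ?_, ?_, ?_⟩
    · rw [Fintype.card_pos_iff]
      by_contra hemp
      rw [not_nonempty_iff] at hemp
      rw [Finset.univ_eq_empty, Finset.sum_empty] at hw1
      exact zero_ne_one hw1
    · intro i y hy
      rw [ip_smul_left, ip_smul_left]
      exact mul_le_mul_of_nonneg_left (hn _ y hy) (hw _).le
    · intro i hi
      rcases smul_eq_zero.mp hi with h | h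
      · exact (hw _).ne' h
      · have := hn1 (eq.symm i)
        rw [h, norm_zero] at this
        exact zero_ne_one this
    · rw [← hsum]
      exact Equiv.sum_comp eq.symm fun i => w i • z i
  · -- separation: the arc is good
    exfalso
    obtain ⟨f, u, hu0, hu⟩ := geometric_hahn_banach_point_closed (convex_convexHull ℝ S)
      (cert_hull S hScomp).isClosed h0
    rw [map_zero] at hu0
    obtain ⟨d, hd⟩ := cert_dual f
    apply hbad
    refine ⟨d, fun x hx => ?_⟩
    by_contra hdC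
    obtain ⟨n, hn0, hn, hnd⟩ := exists_normal hcv hne (hYK hx) hdC
    have hpos : 0 < ‖n‖ := norm_pos_iff.mpr hn0
    have hmem : ‖n‖⁻¹ • n ∈ S := by
      rw [hSdef]
      refine ⟨?_, x, hx, ?_⟩
      · rw [norm_smul, norm_inv, norm_norm, inv_mul_cancel₀ hpos.ne']
      · intro y hy
        rw [ip_smul_left, ip_smul_left]
        exact mul_le_mul_of_nonneg_left (hn y hy) (inv_pos.mpr hpos).le
    have h3 := hu _ (subset_convexHull ℝ S hmem)
    have h4 := hd (‖n‖⁻¹ • n)
    rw [ip_smul_left] at h4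
    have h5 : 0 ≤ ‖n‖⁻¹ * ip n d := mul_nonneg (inv_pos.mpr hpos).le hnd
    linarith

end Pool.Agent.H165.HW
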