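import Pool.Agent.H332.HT.Defs

/-!
Thirteen directions for a convex body of `ℝ³` (page MP_eba1ef_gt): common interface.
`V2`, `V3`, `det`, `P`, `IP`, `T`, `C`, `Full`, `Good`, `Bi` are those of
`Pool.Agent.H332.HT.Defs` (none of them uses a symmetry).
-/

set_option autoImplicit false

namespace Pool.Agent.H165.HW

open Pool.Agent.H332.HT (V2 V3 det P IP T C Full Good Bi)

/-- a normalised convex body: `[N, S]` is an affine diameter, the horizontal planes through its
ends support `K`, and the shadow `P` satisfies `-P ⊆ lam P` -/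
structure GB (lam : ℝ) (K : Set V3) : Prop where
  cpt : IsCompact K
  cvx : Convex ℝ K
  ht : ∀ p : V2, ∀ z : ℝ, ((p, z) : V3) ∈ K → |z| ≤ 1
  N : (((0 : V2), (1 : ℝ)) : V3) ∈ K
  S : (((0 : V2), (-1 : ℝ)) : V3) ∈ K
  int0 : (0 : V3) ∈ interior K
  cen : ∀ x ∈ P K, -((1 / lam) • x) ∈ P K

/-- a parametrisation of the boundary of the shadow -/
structure Par (K : Set V3) (q : ℝ → V2) : Prop where
  cont : Continuous q
  mem : ∀ t, q t ∈ P K
  nint : ∀ t, q t ∉ IP K
  per : ∀ t, q (t + 2 * Real.pi) = q t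
  pos : ∀ s t, s < t → t < s + Real.pi → 0 < det (q s) (q t)
  surj : ∀ p ∈ P K, p ∉ IP K → ∃ t, q t = p

/-- (A): the strict pair lemma -/
def S_pair : Prop := ∀ (lam : ℝ) (K : Set V3), GB lam K → ∀ q : ℝ → V2, Par K q →
  ∀ a b c d : ℝ, a ≤ b → b < c → c ≤ d → d < a + Real.pi →
  det (q a) (q b) ≤ det (q a) (q d) → det (q c) (q d) ≤ det (q a) (q d) →
  ¬ Good K q a b → ¬ Good K q c d → Bi K q a b ∧ Bi K q c d

end Pool.Agent.H165.HW
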