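import Pool.Agent.H165.HW.Cert

/-!
The strict pair lemma for two disjoint arcs of the boundary of the shadow.
-/

set_option autoImplicit false

namespace Pool.Agent.H165.HW

open Pool.Agent.H332.HT (V2 V3 det P IP T C Full Good Bi)

theorem cvxP {lam : ℝ} {K : Set V3} (hK : GB lam K) : Convex ℝ (P K) :=
  hK.cvx.linear_image (LinearMap.fst ℝ V2 ℝ)

theorem zeroIP {lam : ℝ} {K : Set V3} (hK : GB lam K) : (0 : V2) ∈ IP K := by
  have h := (isOpenMap_fst (X := V2) (Y := ℝ)).image_interior_subset K
  exact h ⟨0, hK.int0, rfl⟩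

/-- a functional of the plane which is maximal at a point of the shadow is positive there -/
theorem dt_pos {lam : ℝ} {K : Set V3} (hK : GB lam K) {ν p : V2} (hν : ν ≠ 0)
    (hmax : ∀ r ∈ P K, dt ν r ≤ dt ν p) : 0 < dt ν p := by
  have hopen : IsOpen ((fun e : ℝ => e • ν) ⁻¹' (IP K)) :=
    isOpen_interior.preimage (continuous_id.smul continuous_const)
  have h0 : (0 : ℝ) ∈ (fun e : ℝ => e • ν) ⁻¹' (IP K) := by
    simpa using zeroIP hK
  obtain ⟨ε, hε, hball⟩ := Metric.isOpen_iff.1 hopen 0 h0
  have h1 : (ε / 2) • ν ∈ IP K := by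
    apply hball
    rw [Metric.mem_ball, dist_zero_right, Real.norm_eq_abs, abs_of_pos (by positivity)]
    linarith
  have h2 := hmax _ (interior_subset h1)
  have h3 : dt ν ((ε / 2) • ν) = (ε / 2) * (ν.1 ^ 2 + ν.2 ^ 2) := by
    simp only [dt, Prod.smul_fst, Prod.smul_snd, smul_eq_mul]; ring
  have h4 : 0 < ν.1 ^ 2 + ν.2 ^ 2 := by
    rcases eq_or_ne ν.1 0 with h | h
    · rcases eq_or_ne ν.2 0 with h' | h'
      · exact absurd (Prod.ext h h') hν
      · positivity
    · positivity
  rw [h3] at h2
  have : 0 < (ε / 2) * (ν.1 ^ 2 + ν.2 ^ 2) := by positivity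
  linarith

/-- a support functional at a boundary point of the shadow -/
theorem supp {lam : ℝ} {K : Set V3} (hK : GB lam K) {p : V2} (hp : p ∉ IP K) :
    ∃ ν : V2, 0 < dt ν p ∧ ∀ r ∈ P K, dt ν r ≤ dt ν p := by
  obtain ⟨f, hf⟩ := geometric_hahn_banach_open_point (cvxP hK).interior isOpen_interior hp
  refine ⟨(f (1, 0), f (0, 1)), ?_⟩
  have hfe : ∀ r : V2, dt (f (1, 0), f (0, 1)) r = f r := by
    intro r
    have e : r = r.1 • ((1, 0) : V2) + r.2 • ((0, 1) : V2) := by
      ext <;> simp
    conv_rhs => rw [e, map_add, map_smul, map_smul]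
    simp only [dt, smul_eq_mul]; ring
  have hpos : 0 < f p := by
    have h := hf 0 (zeroIP hK)
    rwa [map_zero] at h
  refine ⟨by rw [hfe]; exact hpos, fun r hr => ?_⟩
  rw [hfe, hfe]
  have h1 : closure (interior (P K)) ⊆ {y | f y ≤ f p} := by
    refine closure_minimal (fun y hy => (hf y hy).le) ?_
    exact isClosed_le f.continuous continuous_const
  apply h1
  rw [(cvxP hK).closure_interior_eq_closure_of_nonempty_interior ⟨0, zeroIP hK⟩]
  exact subset_closure hr

theorem det_self (a : V2) : det a a = 0 := by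
  simp only [det]; ring

/-- the triangle inequality -/
theorem tri {lam : ℝ} {K : Set V3} (hK : GB lam K) {q : ℝ → V2} (hq : Par K q) {s t u : ℝ}
    (hst : s < t) (htu : t < u) (hus : u < s + Real.pi) :
    det (q s) (q u) ≤ det (q s) (q t) + det (q t) (q u) := by
  obtain ⟨ν, hν, hmax⟩ := supp hK (hq.nint t)
  have h1 := hmax _ (hq.mem s)
  have h2 := hmax _ (hq.mem u)
  have p1 := hq.pos s t hst (by linarith)
  have p2 := hq.pos t u htu (by linarith)
  have e : det (q s) (q u) * dt ν (q t) =
      det (q t) (q u) * dt ν (q s) + det (q s) (q t) * dt ν (q u) := by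
    simp only [det, dt]; ring
  by_contra hcon
  push Not at hcon
  have h3 : (det (q s) (q t) + det (q t) (q u)) * dt ν (q t) <
      det (q s) (q u) * dt ν (q t) := mul_lt_mul_of_pos_right hcon hν
  have h4 : det (q t) (q u) * dt ν (q s) ≤ det (q t) (q u) * dt ν (q t) :=
    mul_le_mul_of_nonneg_left h1 p2.le
  have h5 : det (q s) (q t) * dt ν (q u) ≤ det (q s) (q t) * dt ν (q t) :=
    mul_le_mul_of_nonneg_left h2 p1.le
  nlinarith

/-- the rows at the first arc -/
theorem rows₁ {lam : ℝ} {K : Set V3} (hK : GB lam K) {q : ℝ → V2} (hq : Par K q)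
    {a b d : ℝ} (hab : a ≤ b) (hda : d < a + Real.pi)
    (h : det (q a) (q b) ≤ det (q a) (q d)) {t t' : ℝ} (hat : a ≤ t) (htb : t ≤ b)
    (hbt : b < t') (htd : t' ≤ d) : det (q a) (q t) ≤ det (q a) (q t') := by
  have hnn : 0 ≤ det (q a) (q b) := by
    rcases eq_or_lt_of_le hab with h0 | h0
    · rw [← h0, det_self]
    · exact (hq.pos a b h0 (by linarith)).le
  have c1 : det (q a) (q b) ≤ det (q a) (q t') := by
    rcases eq_or_lt_of_le htd with h0 | h0
    · rw [h0]; exact h
    · have tr := tri hK hq hbt h0 (by linarith)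
      have p1 := hq.pos b t' hbt (by linarith)
      have p2 := hq.pos t' d h0 (by linarith)
      have p3 := hq.pos b d (by linarith) (by linarith)
      have e : det (q b) (q d) * det (q a) (q t') =
          det (q t') (q d) * det (q a) (q b) + det (q b) (q t') * det (q a) (q d) := by
        simp only [det]; ring
      by_contra hcon
      push Not at hcon
      have h1 : det (q b) (q d) * det (q a) (q t') < det (q b) (q d) * det (q a) (q b) :=
        mul_lt_mul_of_pos_left hcon p3
      have h2 : det (q b) (q t') * det (q a) (q b) ≤ det (q b) (q t') * det (q a) (q d) :=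
        mul_le_mul_of_nonneg_left h p1.le
      have h3 : det (q b) (q d) * det (q a) (q b) ≤
          (det (q b) (q t') + det (q t') (q d)) * det (q a) (q b) :=
        mul_le_mul_of_nonneg_right tr hnn
      nlinarith
  rcases eq_or_lt_of_le htb with h0 | h0
  · rw [h0]; exact c1
  · by_contra hcon
    push Not at hcon
    have tr := tri hK hq h0 hbt (by linarith)
    have p1 := hq.pos t b h0 (by linarith)
    have p2 := hq.pos b t' hbt (by linarith)
    have e : det (q t) (q t') * det (q a) (q b) =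
        det (q b) (q t') * det (q a) (q t) + det (q t) (q b) * det (q a) (q t') := by
      simp only [det]; ring
    have h1 : det (q b) (q t') * det (q a) (q b) < det (q b) (q t') * det (q a) (q t) :=
      mul_lt_mul_of_pos_left (by linarith) p2
    have h2 : det (q t) (q b) * det (q a) (q b) ≤ det (q t) (q b) * det (q a) (q t') :=
      mul_le_mul_of_nonneg_left c1 p1.le
    have h3 : det (q t) (q t') * det (q a) (q b) ≤
        (det (q t) (q b) + det (q b) (q t')) * det (q a) (q b) :=
      mul_le_mul_of_nonneg_right tr hnn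
    nlinarith

/-- the rows at the second arc -/
theorem rows₂ {lam : ℝ} {K : Set V3} (hK : GB lam K) {q : ℝ → V2} (hq : Par K q)
    {a c d : ℝ} (hcd : c ≤ d) (hda : d < a + Real.pi)
    (h : det (q c) (q d) ≤ det (q a) (q d)) {t t' : ℝ} (hat : a ≤ t) (htc : t < c)
    (hct : c ≤ t') (htd : t' ≤ d) : det (q t') (q d) ≤ det (q t) (q d) := by
  have hnn : 0 ≤ det (q c) (q d) := by
    rcases eq_or_lt_of_le hcd with h0 | h0
    · rw [← h0, det_self]
    · exact (hq.pos c d h0 (by linarith)).le
  have c1 : det (q c) (q d) ≤ det (q t) (q d) := by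
    rcases eq_or_lt_of_le hat with h0 | h0
    · rw [← h0]; exact h
    · have tr := tri hK hq h0 htc (by linarith)
      have p1 := hq.pos a t h0 (by linarith)
      have p2 := hq.pos t c htc (by linarith)
      have p3 := hq.pos a c (by linarith) (by linarith)
      have e : det (q a) (q c) * det (q t) (q d) =
          det (q t) (q c) * det (q a) (q d) + det (q a) (q t) * det (q c) (q d) := by
        simp only [det]; ring
      by_contra hcon
      push Not at hcon
      have h1 : det (q a) (q c) * det (q t) (q d) < det (q a) (q c) * det (q c) (q d) :=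
        mul_lt_mul_of_pos_left hcon p3
      have h2 : det (q t) (q c) * det (q c) (q d) ≤ det (q t) (q c) * det (q a) (q d) :=
        mul_le_mul_of_nonneg_left h p2.le
      have h3 : det (q a) (q c) * det (q c) (q d) ≤
          (det (q a) (q t) + det (q t) (q c)) * det (q c) (q d) :=
        mul_le_mul_of_nonneg_right tr hnn
      nlinarith
  rcases eq_or_lt_of_le hct with h0 | h0
  · rw [← h0]; exact c1
  · by_contra hcon
    push Not at hcon
    have tr := tri hK hq htc h0 (by linarith)
    have p1 := hq.pos t c htc (by linarith)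
    have p2 := hq.pos c t' h0 (by linarith)
    have e : det (q t) (q t') * det (q c) (q d) =
        det (q c) (q t') * det (q t) (q d) + det (q t) (q c) * det (q t') (q d) := by
      simp only [det]; ring
    have h1 : det (q t) (q c) * det (q c) (q d) < det (q t) (q c) * det (q t') (q d) :=
      mul_lt_mul_of_pos_left (by linarith) p1
    have h2 : det (q c) (q t') * det (q c) (q d) ≤ det (q c) (q t') * det (q t) (q d) :=
      mul_le_mul_of_nonneg_left c1 p2.le
    have h3 : det (q t) (q t') * det (q c) (q d) ≤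
        (det (q t) (q c) + det (q c) (q t')) * det (q c) (q d) :=
      mul_le_mul_of_nonneg_right tr hnn
    nlinarith

/-- **The key inequality** for two normals on the same side. -/
theorem key {lam : ℝ} {K : Set V3} (hK : GB lam K) {a m d t t' : V2} {z z' : ℝ} {n n' : V3}
    (σ : ℝ) (hσ : σ = 1 ∨ σ = -1)
    (hx : ((t, z) : V3) ∈ K) (hn : n ∈ NK K (t, z)) (hx' : ((t', z') : V3) ∈ K)
    (hn' : n' ∈ NK K (t', z')) (h2 : 0 < σ * n.2) (h2' : 0 < σ * n'.2)
    (hat : 0 ≤ det a t) (ht'd : 0 ≤ det t' d) (ham : 0 < det a m) (hmd : 0 < det m d)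
    (r1 : det a t ≤ det a t') (r2 : det t' d ≤ det t d) :
    (σ * n.2) * (σ * n'.2) * (det a d * ((1 - σ * z) * det m t' + (1 - σ * z') * det t m)) ≤
      det t t' * ((σ * n'.2) * det m d * dt n.1 a + (σ * n.2) * det a m * dt n'.1 d) := by
  have hσ2 : σ * σ = 1 := by rcases hσ with h | h <;> rw [h] <;> norm_num
  have hpt : (((0 : V2), σ) : V3) ∈ K := by
    rcases hσ with h | h <;> rw [h]
    · exact hK.N
    · exact hK.S
  have N1 := hn _ hx'
  have N2 := hn _ hpt
  have N3 := hn' _ hx
  have N4 := hn' _ hpt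
  have hz0 : ∀ ν : V2, dt ν 0 = 0 := fun ν => by simp [dt]
  simp only [ip, hz0, zero_add] at N1 N2 N3 N4
  obtain ⟨τ, hτ⟩ : ∃ τ, τ = σ * n.2 := ⟨_, rfl⟩
  obtain ⟨τ', hτ'⟩ : ∃ τ', τ' = σ * n'.2 := ⟨_, rfl⟩
  have e1 : n.2 = σ * τ := by rw [hτ, ← mul_assoc, hσ2, one_mul]
  have e1' : n'.2 = σ * τ' := by rw [hτ', ← mul_assoc, hσ2, one_mul]
  rw [← hτ] at h2
  rw [← hτ'] at h2'
  rw [← hτ, ← hτ']
  rw [e1] at N1 N2
  rw [e1'] at N3 N4
  obtain ⟨X, hX⟩ : ∃ X, X = dt n.1 t := ⟨_, rfl⟩
  obtain ⟨Y, hY⟩ : ∃ Y, Y = dt n.1 t' := ⟨_, rfl⟩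
  obtain ⟨X', hX'⟩ : ∃ X', X' = dt n'.1 t' := ⟨_, rfl⟩
  obtain ⟨Y', hY'⟩ : ∃ Y', Y' = dt n'.1 t := ⟨_, rfl⟩
  rw [← hX, ← hY] at N1
  rw [← hX] at N2
  rw [← hX', ← hY'] at N3
  rw [← hX'] at N4
  have N2' : τ * (1 - σ * z) ≤ X := by
    have : σ * τ * σ = τ := by
      calc σ * τ * σ = (σ * σ) * τ := by ring
        _ = τ := by rw [hσ2, one_mul]
    rw [this] at N2
    nlinarith
  have N4' : τ' * (1 - σ * z') ≤ X' := by
    have : σ * τ' * σ = τ' := by
      calc σ * τ' * σ = (σ * σ) * τ' := by ring
        _ = τ' := by rw [hσ2, one_mul]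
    rw [this] at N4
    nlinarith
  have i1 : det t t' * dt n.1 a = det a t' * X - det a t * Y := by
    rw [hX, hY]; simp only [det, dt]; ring
  have i2 : det t t' * dt n'.1 d = det t d * X' - det t' d * Y' := by
    rw [hX', hY']; simp only [det, dt]; ring
  have A1 : τ * (det a t' * (1 - σ * z) - det a t * (1 - σ * z')) ≤ det t t' * dt n.1 a := by
    rw [i1]
    have k1 : det a t * Y ≤ det a t * (X + σ * τ * z - σ * τ * z') :=
      mul_le_mul_of_nonneg_left (by linarith) hat
    have k2 : (det a t' - det a t) * (τ * (1 - σ * z)) ≤ (det a t' - det a t) * X :=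
      mul_le_mul_of_nonneg_left N2' (by linarith)
    nlinarith
  have A2 : τ' * (det t d * (1 - σ * z') - det t' d * (1 - σ * z)) ≤ det t t' * dt n'.1 d := by
    rw [i2]
    have k1 : det t' d * Y' ≤ det t' d * (X' + σ * τ' * z' - σ * τ' * z) :=
      mul_le_mul_of_nonneg_left (by linarith) ht'd
    have k2 : (det t d - det t' d) * (τ' * (1 - σ * z')) ≤ (det t d - det t' d) * X' :=
      mul_le_mul_of_nonneg_left N4' (by linarith)
    nlinarith
  have B1 := mul_le_mul_of_nonneg_left A1 (mul_pos h2' hmd).le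
  have B2 := mul_le_mul_of_nonneg_left A2 (mul_pos h2 ham).le
  have P1 : det m d * det a t' - det a m * det t' d = det a d * det m t' := by
    simp only [det]; ring
  have P2 : det a m * det t d - det m d * det a t = det a d * det t m := by
    simp only [det]; ring
  have e : τ * τ' * (det a d * ((1 - σ * z) * det m t' + (1 - σ * z') * det t m)) =
      τ' * det m d * (τ * (det a t' * (1 - σ * z) - det a t * (1 - σ * z'))) +
      τ * det a m * (τ' * (det t d * (1 - σ * z') - det t' d * (1 - σ * z))) := by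
    have : det a d * ((1 - σ * z) * det m t' + (1 - σ * z') * det t m) =
      (1 - σ * z) * (det a d * det m t') + (1 - σ * z') * (det a d * det t m) := by ring
    rw [this, ← P1, ← P2]; ring
  rw [e]
  have e' : det t t' * (τ' * det m d * dt n.1 a + τ * det a m * dt n'.1 d) =
      τ' * det m d * (det t t' * dt n.1 a) + τ * det a m * (det t t' * dt n'.1 d) := by ring
  rw [e']
  linarith

end Pool.Agent.H165.HW
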