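import Pool.Agent.H165.HW.Pair

/-!
The strict pair lemma: two disjoint arcs inside a half-turn with
`[ab] ≤ [ad]`, `[cd] ≤ [ad]` are not both bad unless both carry a top and a bottom point.
-/

set_option autoImplicit false

open Finset

namespace Pool.Agent.H165.HW

open Pool.Agent.H332.HT (V2 V3 det P IP T C Full Good Bi)

/-- a bad arc has a certificate -/
theorem cert_arc {lam : ℝ} {K : Set V3} (hK : GB lam K) {q : ℝ → V2} (hq : Par K q) {a b : ℝ}
    (hbad : ¬ Good K q a b) :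
    ∃ (k : ℕ) (θ : Fin k → ℝ) (z : Fin k → ℝ) (n : Fin k → V3), 0 < k ∧ (∀ i, a ≤ θ i) ∧
      (∀ i, θ i ≤ b) ∧ (∀ i, ((q (θ i), z i) : V3) ∈ K) ∧ (∀ i, n i ∈ NK K (q (θ i), z i)) ∧
      (∀ i, n i ≠ 0) ∧ ∑ i, n i = 0 := by
  obtain ⟨Y, hYdef⟩ : ∃ Y : Set V3, Y = K ∩ Prod.fst ⁻¹' (q '' Set.Icc a b) := ⟨_, rfl⟩
  have hY : IsCompact Y := by
    rw [hYdef]
    refine hK.cpt.inter_right ?_
    exact ((isCompact_Icc.image hq.cont).isClosed).preimage continuous_fst
  have hbad' : ¬ ∃ d : V3, ∀ x ∈ Y, d ∈ C K x := by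
    rintro ⟨d, hd⟩
    apply hbad
    refine ⟨d, fun t h1 h2 z hz => hd _ ?_⟩
    rw [hYdef]
    exact ⟨hz, t, ⟨h1, h2⟩, rfl⟩
  obtain ⟨k, x, n, hk, hx, hn, hn0, hsum⟩ := cert hK.cpt hK.cvx ⟨0, hK.int0⟩ hY
    (by rw [hYdef]; exact Set.inter_subset_left) hbad'
  rw [hYdef] at hx
  have hx' : ∀ i, ∃ θ : ℝ, (a ≤ θ ∧ θ ≤ b) ∧ q θ = (x i).1 := by
    intro i
    obtain ⟨θ, hθ, he⟩ := (hx i).2
    exact ⟨θ, hθ, he⟩
  choose θ hθ he using hx'
  have hxe : ∀ i, ((q (θ i), (x i).2) : V3) = x i := by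
    intro i
    rw [he i]
  refine ⟨k, θ, fun i => (x i).2, n, hk, fun i => (hθ i).1, fun i => (hθ i).2, ?_, ?_, hn0, hsum⟩
  · intro i
    rw [hxe]
    exact (hx i).1
  · intro i
    simp only
    rw [hxe]
    exact hn i

theorem dt_sum {k : ℕ} (n : Fin k → V3) (p : V2) (h : ∑ i, n i = 0) :
    ∑ i, dt (n i).1 p = 0 := by
  have h1 : (∑ i, (n i).1) = 0 := by
    have := congrArg Prod.fst h
    rwa [Prod.fst_sum] at this
  have h2 : ∑ i, (n i).1.1 = 0 := by
    have := congrArg Prod.fst h1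
    rwa [Prod.fst_sum] at this
  have h3 : ∑ i, (n i).1.2 = 0 := by
    have := congrArg Prod.snd h1
    rwa [Prod.snd_sum] at this
  unfold dt
  rw [sum_add_distrib, ← sum_mul, ← sum_mul, h2, h3]
  ring

theorem ht_sum {k : ℕ} (n : Fin k → V3) (h : ∑ i, n i = 0) : ∑ i, (n i).2 = 0 := by
  have := congrArg Prod.snd h
  rwa [Prod.snd_sum] at this

/-- the three parts of a sum -/
theorem sum_three {k : ℕ} (t f : Fin k → ℝ) :
    ∑ i, f i = ∑ i ∈ univ.filter (fun i => 0 < t i), f i +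
      ∑ i ∈ univ.filter (fun i => t i < 0), f i + ∑ i ∈ univ.filter (fun i => t i = 0), f i := by
  rw [sum_filter, sum_filter, sum_filter, ← sum_add_distrib, ← sum_add_distrib]
  refine sum_congr rfl fun i _ => ?_
  rcases lt_trichotomy 0 (t i) with h | h | h
  · rw [if_pos h, if_neg (not_lt.2 h.le), if_neg h.ne']; ring
  · rw [if_neg (by rw [← h]; exact lt_irrefl _), if_neg (by rw [← h]; exact lt_irrefl _),
      if_pos h.symm]; ring
  · rw [if_neg (not_lt.2 h.le), if_pos h, if_neg h.ne]; ring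

theorem double_sum {k k' : ℕ} (U : Finset (Fin k)) (U' : Finset (Fin k')) (τ E : Fin k → ℝ)
    (τ' E' : Fin k' → ℝ) (g h : ℝ) :
    ∑ i ∈ U, ∑ j ∈ U', (τ' j * g * E i + τ i * h * E' j) =
      (∑ j ∈ U', τ' j) * g * ∑ i ∈ U, E i + (∑ i ∈ U, τ i) * h * ∑ j ∈ U', E' j := by
  have e1 : ∀ i ∈ U, ∑ j ∈ U', (τ' j * g * E i + τ i * h * E' j) =
      (∑ j ∈ U', τ' j) * g * E i + τ i * h * ∑ j ∈ U', E' j := by
    intro i _
    rw [sum_add_distrib, ← sum_mul, ← sum_mul, ← mul_sum]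
  rw [sum_congr rfl e1, sum_add_distrib, ← mul_sum, ← sum_mul, ← sum_mul]

/-- (A): the strict pair lemma -/
theorem pair : S_pair := by
  intro lam K hK q hq a b c d hab hbc hcd hda h1 h2 hb1 hb2
  obtain ⟨k, θ, z, n, hk, hθa, hθb, hx, hn, hn0, hsum⟩ := cert_arc hK hq hb1
  obtain ⟨k', θ', z', n', hk', hθc, hθd, hx', hn', hn0', hsum'⟩ := cert_arc hK hq hb2
  obtain ⟨m, hbm, hmc⟩ := exists_between hbc
  have ham : 0 < det (q a) (q m) := hq.pos a m (by linarith) (by linarith)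
  have hmd : 0 < det (q m) (q d) := hq.pos m d (by linarith) (by linarith)
  have had : 0 < det (q a) (q d) := hq.pos a d (by linarith) hda
  have htt : ∀ i j, 0 < det (q (θ i)) (q (θ' j)) := fun i j =>
    hq.pos _ _ (by linarith [hθb i, hθc j]) (by linarith [hθa i, hθd j])
  have htm : ∀ i, 0 < det (q (θ i)) (q m) := fun i =>
    hq.pos _ _ (by linarith [hθb i]) (by linarith [hθa i])
  have hmt : ∀ j, 0 < det (q m) (q (θ' j)) := fun j =>
    hq.pos _ _ (by linarith [hθc j]) (by linarith [hθd j])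
  have hat : ∀ i, 0 ≤ det (q a) (q (θ i)) := by
    intro i
    rcases eq_or_lt_of_le (hθa i) with h0 | h0
    · rw [← h0, det_self]
    · exact (hq.pos _ _ h0 (by linarith [hθb i])).le
  have htd' : ∀ j, 0 ≤ det (q (θ' j)) (q d) := by
    intro j
    rcases eq_or_lt_of_le (hθd j) with h0 | h0
    · rw [h0, det_self]
    · exact (hq.pos _ _ h0 (by linarith [hθc j])).le
  have R1 : ∀ i t', b < t' → t' ≤ d → det (q a) (q (θ i)) ≤ det (q a) (q t') :=
    fun i t' ha hb => rows₁ hK hq hab hda h1 (hθa i) (hθb i) ha hb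
  have R2 : ∀ j t, a ≤ t → t < c → det (q (θ' j)) (q d) ≤ det (q t) (q d) :=
    fun j t ha hb => rows₂ hK hq hcd hda h2 ha hb (hθc j) (hθd j)
  -- the values
  obtain ⟨E, hE⟩ : ∃ E : Fin k → ℝ, E = fun i => dt (n i).1 (q a) := ⟨_, rfl⟩
  obtain ⟨E', hE'⟩ : ∃ E' : Fin k' → ℝ, E' = fun j => dt (n' j).1 (q d) := ⟨_, rfl⟩
  have sE : ∑ i, E i = 0 := by rw [hE]; exact dt_sum n _ hsum
  have sE' : ∑ j, E' j = 0 := by rw [hE']; exact dt_sum n' _ hsum'
  have sh : ∑ i, (n i).2 = 0 := ht_sum n hsum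
  have sh' : ∑ j, (n' j).2 = 0 := ht_sum n' hsum'
  -- horizontal normals
  have hmax : ∀ i, (n i).2 = 0 → ∀ r ∈ P K, dt (n i).1 r ≤ dt (n i).1 (q (θ i)) := by
    rintro i h0 r ⟨y, hy, rfl⟩
    have := hn i y hy
    simp only [ip, h0, zero_mul, add_zero] at this
    exact this
  have hmax' : ∀ j, (n' j).2 = 0 → ∀ r ∈ P K, dt (n' j).1 r ≤ dt (n' j).1 (q (θ' j)) := by
    rintro j h0 r ⟨y, hy, rfl⟩
    have := hn' j y hy
    simp only [ip, h0, zero_mul, add_zero] at this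
    exact this
  have hXpos : ∀ i, (n i).2 = 0 → 0 < dt (n i).1 (q (θ i)) := by
    intro i h0
    refine dt_pos hK (fun hc => hn0 i (Prod.ext hc h0)) (hmax i h0)
  have hXpos' : ∀ j, (n' j).2 = 0 → 0 < dt (n' j).1 (q (θ' j)) := by
    intro j h0
    refine dt_pos hK (fun hc => hn0' j (Prod.ext hc h0)) (hmax' j h0)
  have idE : ∀ i, det (q (θ i)) (q d) * E i =
      det (q a) (q d) * dt (n i).1 (q (θ i)) - det (q a) (q (θ i)) * dt (n i).1 (q d) := by
    intro i
    rw [hE]; simp only [det, dt]; ring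
  have idE' : ∀ j, det (q a) (q (θ' j)) * E' j =
      det (q a) (q d) * dt (n' j).1 (q (θ' j)) - det (q (θ' j)) (q d) * dt (n' j).1 (q a) := by
    intro j
    rw [hE']; simp only [det, dt]; ring
  have htd : ∀ i, 0 < det (q (θ i)) (q d) := fun i =>
    hq.pos _ _ (by linarith [hθb i]) (by linarith [hθa i])
  have hat' : ∀ j, 0 < det (q a) (q (θ' j)) := fun j =>
    hq.pos _ _ (by linarith [hθc j]) (by linarith [hθd j])
  have hEH : ∀ i, (n i).2 = 0 → 0 ≤ E i := by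
    intro i h0
    have e := idE i
    have m1 := hmax i h0 _ (hq.mem d)
    have m2 := hXpos i h0
    have m3 := R1 i d (by linarith) le_rfl
    have m4 : det (q a) (q (θ i)) * dt (n i).1 (q d) ≤
        det (q a) (q (θ i)) * dt (n i).1 (q (θ i)) := mul_le_mul_of_nonneg_left m1 (hat i)
    have m5 : det (q a) (q (θ i)) * dt (n i).1 (q (θ i)) ≤
        det (q a) (q d) * dt (n i).1 (q (θ i)) := mul_le_mul_of_nonneg_right m3 m2.le
    by_contra hcon
    push Not at hcon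
    have := mul_neg_of_pos_of_neg (htd i) hcon
    linarith
  have hEH' : ∀ j, (n' j).2 = 0 → 0 ≤ E' j := by
    intro j h0
    have e := idE' j
    have m1 := hmax' j h0 _ (hq.mem a)
    have m2 := hXpos' j h0
    have m3 := R2 j a le_rfl (by linarith)
    have m4 : det (q (θ' j)) (q d) * dt (n' j).1 (q a) ≤
        det (q (θ' j)) (q d) * dt (n' j).1 (q (θ' j)) := mul_le_mul_of_nonneg_left m1 (htd' j)
    have m5 : det (q (θ' j)) (q d) * dt (n' j).1 (q (θ' j)) ≤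
        det (q a) (q d) * dt (n' j).1 (q (θ' j)) := mul_le_mul_of_nonneg_right m3 m2.le
    by_contra hcon
    push Not at hcon
    have := mul_neg_of_pos_of_neg (hat' j) hcon
    linarith
  -- not all normals are horizontal
  have hnh : ∃ i, (n i).2 ≠ 0 := by
    by_contra hcon
    push Not at hcon
    have hz : ∀ i ∈ univ, E i = 0 :=
      (sum_eq_zero_iff_of_nonneg (fun i _ => hEH i (hcon i))).1 sE
    have hpos : ∀ i, 0 < dt (n i).1 (q d) := by
      intro i
      have e := idE i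
      rw [hz i (mem_univ i), mul_zero] at e
      have m2 := mul_pos had (hXpos i (hcon i))
      by_contra hc
      push Not at hc
      have := mul_nonpos_of_nonneg_of_nonpos (hat i) hc
      linarith
    have h3 := dt_sum n (q d) hsum
    have h4 : 0 < ∑ i, dt (n i).1 (q d) :=
      sum_pos (fun i _ => hpos i) ⟨⟨0, hk⟩, mem_univ _⟩
    linarith
  have hnh' : ∃ j, (n' j).2 ≠ 0 := by
    by_contra hcon
    push Not at hcon
    have hz : ∀ j ∈ univ, E' j = 0 :=
      (sum_eq_zero_iff_of_nonneg (fun j _ => hEH' j (hcon j))).1 sE'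
    have hpos : ∀ j, 0 < dt (n' j).1 (q a) := by
      intro j
      have e := idE' j
      rw [hz j (mem_univ j), mul_zero] at e
      have m2 := mul_pos had (hXpos' j (hcon j))
      by_contra hc
      push Not at hc
      have := mul_nonpos_of_nonneg_of_nonpos (htd' j) hc
      linarith
    have h3 := dt_sum n' (q a) hsum'
    have h4 : 0 < ∑ j, dt (n' j).1 (q a) :=
      sum_pos (fun j _ => hpos j) ⟨⟨0, hk'⟩, mem_univ _⟩
    linarith
  -- the index sets
  obtain ⟨U, hU⟩ : ∃ U : Finset (Fin k), U = univ.filter (fun i => 0 < (n i).2) := ⟨_, rfl⟩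
  obtain ⟨D, hD⟩ : ∃ D : Finset (Fin k), D = univ.filter (fun i => (n i).2 < 0) := ⟨_, rfl⟩
  obtain ⟨H, hH⟩ : ∃ H : Finset (Fin k), H = univ.filter (fun i => (n i).2 = 0) := ⟨_, rfl⟩
  obtain ⟨U', hU'⟩ : ∃ U : Finset (Fin k'), U = univ.filter (fun i => 0 < (n' i).2) := ⟨_, rfl⟩
  obtain ⟨D', hD'⟩ : ∃ D : Finset (Fin k'), D = univ.filter (fun i => (n' i).2 < 0) := ⟨_, rfl⟩
  obtain ⟨H', hH'⟩ : ∃ H : Finset (Fin k'), H = univ.filter (fun i => (n' i).2 = 0) := ⟨_, rfl⟩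
  have mU : ∀ i, i ∈ U ↔ 0 < (n i).2 := fun i => by rw [hU]; simp
  have mD : ∀ i, i ∈ D ↔ (n i).2 < 0 := fun i => by rw [hD]; simp
  have mH : ∀ i, i ∈ H ↔ (n i).2 = 0 := fun i => by rw [hH]; simp
  have mU' : ∀ i, i ∈ U' ↔ 0 < (n' i).2 := fun i => by rw [hU']; simp
  have mD' : ∀ i, i ∈ D' ↔ (n' i).2 < 0 := fun i => by rw [hD']; simp
  have mH' : ∀ i, i ∈ H' ↔ (n' i).2 = 0 := fun i => by rw [hH']; simp
  have s1 := sum_three (fun i => (n i).2) E
  have s2 := sum_three (fun i => (n i).2) (fun i => (n i).2)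
  have s1' := sum_three (fun i => (n' i).2) E'
  have s2' := sum_three (fun i => (n' i).2) (fun i => (n' i).2)
  rw [← hU, ← hD, ← hH, sE] at s1
  rw [← hU, ← hD, ← hH, sh] at s2
  rw [← hU', ← hD', ← hH', sE'] at s1'
  rw [← hU', ← hD', ← hH', sh'] at s2'
  have z2 : ∑ i ∈ H, (n i).2 = 0 := sum_eq_zero fun i hi => (mH i).1 hi
  have z2' : ∑ i ∈ H', (n' i).2 = 0 := sum_eq_zero fun i hi => (mH' i).1 hi
  rw [z2, add_zero] at s2
  rw [z2', add_zero] at s2'
  have hHs : 0 ≤ ∑ i ∈ H, E i := sum_nonneg fun i hi => hEH i ((mH i).1 hi)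
  have hHs' : 0 ≤ ∑ i ∈ H', E' i := sum_nonneg fun i hi => hEH' i ((mH' i).1 hi)
  obtain ⟨A, hA⟩ : ∃ A, A = ∑ i ∈ U, (n i).2 := ⟨_, rfl⟩
  obtain ⟨A', hA'⟩ : ∃ A', A' = ∑ i ∈ U', (n' i).2 := ⟨_, rfl⟩
  have hAD : ∑ i ∈ D, (-1 : ℝ) * (n i).2 = A := by
    rw [← mul_sum]; linarith
  have hAD' : ∑ i ∈ D', (-1 : ℝ) * (n' i).2 = A' := by
    rw [← mul_sum]; linarith
  have hAU : ∑ i ∈ U, (1 : ℝ) * (n i).2 = A := by
    rw [← mul_sum, one_mul, hA]
  have hAU' : ∑ i ∈ U', (1 : ℝ) * (n' i).2 = A' := by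
    rw [← mul_sum, one_mul, hA']
  -- positivity of the masses
  have hUne : U.Nonempty ∧ D.Nonempty := by
    obtain ⟨i, hi⟩ := hnh
    constructor
    · by_contra hc
      rw [not_nonempty_iff_eq_empty] at hc
      rw [hc, sum_empty, zero_add] at s2
      have hDs : ∑ i ∈ D, (n i).2 < 0 := by
        refine sum_neg (fun j hj => (mD j).1 hj) ⟨i, (mD i).2 ?_⟩
        rcases lt_or_gt_of_ne hi with h | h
        · exact h
        · exact absurd ((mU i).2 h) (by rw [hc]; simp)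
      linarith
    · by_contra hc
      rw [not_nonempty_iff_eq_empty] at hc
      rw [hc, sum_empty, add_zero] at s2
      have hDs : 0 < ∑ i ∈ U, (n i).2 := by
        refine sum_pos (fun j hj => (mU j).1 hj) ⟨i, (mU i).2 ?_⟩
        rcases lt_or_gt_of_ne hi with h | h
        · exact absurd ((mD i).2 h) (by rw [hc]; simp)
        · exact h
      linarith
  have hUne' : U'.Nonempty ∧ D'.Nonempty := by
    obtain ⟨i, hi⟩ := hnh'
    constructor
    · by_contra hc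
      rw [not_nonempty_iff_eq_empty] at hc
      rw [hc, sum_empty, zero_add] at s2'
      have hDs : ∑ i ∈ D', (n' i).2 < 0 := by
        refine sum_neg (fun j hj => (mD' j).1 hj) ⟨i, (mD' i).2 ?_⟩
        rcases lt_or_gt_of_ne hi with h | h
        · exact h
        · exact absurd ((mU' i).2 h) (by rw [hc]; simp)
      linarith
    · by_contra hc
      rw [not_nonempty_iff_eq_empty] at hc
      rw [hc, sum_empty, add_zero] at s2'
      have hDs : 0 < ∑ i ∈ U', (n' i).2 := by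
        refine sum_pos (fun j hj => (mU' j).1 hj) ⟨i, (mU' i).2 ?_⟩
        rcases lt_or_gt_of_ne hi with h | h
        · exact absurd ((mD' i).2 h) (by rw [hc]; simp)
        · exact h
      linarith
  have hA0 : 0 < A := by
    rw [hA]; exact sum_pos (fun i hi => (mU i).1 hi) hUne.1
  have hA0' : 0 < A' := by
    rw [hA']; exact sum_pos (fun i hi => (mU' i).1 hi) hUne'.1
  -- the double sums
  have keyij : ∀ (σ : ℝ), σ = 1 ∨ σ = -1 → ∀ i j, 0 < σ * (n i).2 → 0 < σ * (n' j).2 →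
      0 ≤ (σ * (n' j).2) * det (q m) (q d) * E i + (σ * (n i).2) * det (q a) (q m) * E' j ∧
      ((σ * (n' j).2) * det (q m) (q d) * E i + (σ * (n i).2) * det (q a) (q m) * E' j = 0 →
        z i = σ ∧ z' j = σ) := by
    intro σ hσ i j hi hj
    have hk1 := key hK σ hσ (hx i) (hn i) (hx' j) (hn' j) hi hj (hat i) (htd' j) ham hmd
      (R1 i _ (lt_of_lt_of_le hbc (hθc j)) (hθd j))
      (R2 j _ (hθa i) (lt_of_le_of_lt (hθb i) hbc))
    have hzi : 0 ≤ 1 - σ * z i := by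
      have := abs_le.1 (hK.ht _ _ (hx i))
      rcases hσ with h | h <;> rw [h] <;> linarith [this.1, this.2]
    have hzj : 0 ≤ 1 - σ * z' j := by
      have := abs_le.1 (hK.ht _ _ (hx' j))
      rcases hσ with h | h <;> rw [h] <;> linarith [this.1, this.2]
    have hττ : 0 < (σ * (n i).2) * (σ * (n' j).2) := mul_pos hi hj
    have hL : 0 ≤ (1 - σ * z i) * det (q m) (q (θ' j)) := mul_nonneg hzi (hmt j).le
    have hR : 0 ≤ (1 - σ * z' j) * det (q (θ i)) (q m) := mul_nonneg hzj (htm i).le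
    have hV : det (q (θ i)) (q (θ' j)) * ((σ * (n' j).2) * det (q m) (q d) * dt (n i).1 (q a) +
        (σ * (n i).2) * det (q a) (q m) * dt (n' j).1 (q d)) =
        det (q (θ i)) (q (θ' j)) * ((σ * (n' j).2) * det (q m) (q d) * E i +
        (σ * (n i).2) * det (q a) (q m) * E' j) := by rw [hE, hE']
    rw [hV] at hk1
    have hpos1 : 0 ≤ (σ * (n i).2) * (σ * (n' j).2) * (det (q a) (q d) *
        ((1 - σ * z i) * det (q m) (q (θ' j)) + (1 - σ * z' j) * det (q (θ i)) (q m))) :=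
      mul_nonneg hττ.le (mul_nonneg had.le (add_nonneg hL hR))
    constructor
    · by_contra hc
      push Not at hc
      have := mul_neg_of_pos_of_neg (htt i j) hc
      linarith
    · intro h0
      rw [h0, mul_zero] at hk1
      have h3 : (σ * (n i).2) * (σ * (n' j).2) * (det (q a) (q d) *
        ((1 - σ * z i) * det (q m) (q (θ' j)) + (1 - σ * z' j) * det (q (θ i)) (q m))) = 0 :=
        le_antisymm hk1 hpos1
      have h4 : (1 - σ * z i) * det (q m) (q (θ' j)) +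
          (1 - σ * z' j) * det (q (θ i)) (q m) = 0 := by
        rcases mul_eq_zero.1 h3 with h | h
        · exact absurd h hττ.ne'
        · rcases mul_eq_zero.1 h with h | h
          · exact absurd h had.ne'
          · exact h
      have h5 : (1 - σ * z i) * det (q m) (q (θ' j)) = 0 := by linarith
      have h6 : (1 - σ * z' j) * det (q (θ i)) (q m) = 0 := by linarith
      have h7 : 1 - σ * z i = 0 := by
        rcases mul_eq_zero.1 h5 with h | h
        · exact h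
        · exact absurd h (hmt j).ne'
      have h8 : 1 - σ * z' j = 0 := by
        rcases mul_eq_zero.1 h6 with h | h
        · exact h
        · exact absurd h (htm i).ne'
      rcases hσ with h | h <;> rw [h] at h7 h8 ⊢ <;> constructor <;> linarith
  have dU := double_sum U U' (fun i => (1 : ℝ) * (n i).2) E (fun j => (1 : ℝ) * (n' j).2) E'
    (det (q m) (q d)) (det (q a) (q m))
  have dD := double_sum D D' (fun i => (-1 : ℝ) * (n i).2) E (fun j => (-1 : ℝ) * (n' j).2) E'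
    (det (q m) (q d)) (det (q a) (q m))
  rw [hAU, hAU'] at dU
  rw [hAD, hAD'] at dD
  have nU : ∀ i ∈ U, 0 ≤ ∑ j ∈ U', ((1 : ℝ) * (n' j).2 * det (q m) (q d) * E i +
      (1 : ℝ) * (n i).2 * det (q a) (q m) * E' j) := fun i hi => sum_nonneg fun j hj =>
    (keyij 1 (Or.inl rfl) i j (by rw [one_mul]; exact (mU i).1 hi)
      (by rw [one_mul]; exact (mU' j).1 hj)).1
  have nD : ∀ i ∈ D, 0 ≤ ∑ j ∈ D', ((-1 : ℝ) * (n' j).2 * det (q m) (q d) * E i +
      (-1 : ℝ) * (n i).2 * det (q a) (q m) * E' j) := fun i hi => sum_nonneg fun j hj =>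
    (keyij (-1) (Or.inr rfl) i j (by linarith [(mD i).1 hi])
      (by linarith [(mD' j).1 hj])).1
  have tU := sum_nonneg nU
  have tD := sum_nonneg nD
  have g1 : 0 < A' * det (q m) (q d) := mul_pos hA0' hmd
  have g2 : 0 < A * det (q a) (q m) := mul_pos hA0 ham
  have tot : A' * det (q m) (q d) * ∑ i ∈ U, E i + A * det (q a) (q m) * ∑ j ∈ U', E' j +
      (A' * det (q m) (q d) * ∑ i ∈ D, E i + A * det (q a) (q m) * ∑ j ∈ D', E' j) +
      (A' * det (q m) (q d) * ∑ i ∈ H, E i + A * det (q a) (q m) * ∑ j ∈ H', E' j) = 0 := by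
    have e1 : ∑ i ∈ U, E i = -∑ i ∈ D, E i - ∑ i ∈ H, E i := by linarith
    have e2 : ∑ i ∈ U', E' i = -∑ i ∈ D', E' i - ∑ i ∈ H', E' i := by linarith
    rw [e1, e2]; ring
  have tH : 0 ≤ A' * det (q m) (q d) * ∑ i ∈ H, E i +
      A * det (q a) (q m) * ∑ j ∈ H', E' j :=
    add_nonneg (mul_nonneg g1.le hHs) (mul_nonneg g2.le hHs')
  rw [← dU, ← dD] at tot
  have zU : ∑ i ∈ U, ∑ j ∈ U', ((1 : ℝ) * (n' j).2 * det (q m) (q d) * E i +
      (1 : ℝ) * (n i).2 * det (q a) (q m) * E' j) = 0 := by linarith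
  have zD : ∑ i ∈ D, ∑ j ∈ D', ((-1 : ℝ) * (n' j).2 * det (q m) (q d) * E i +
      (-1 : ℝ) * (n i).2 * det (q a) (q m) * E' j) = 0 := by linarith
  obtain ⟨⟨i, hi⟩, ⟨i₂, hi₂⟩⟩ := hUne
  obtain ⟨⟨j, hj⟩, ⟨j₂, hj₂⟩⟩ := hUne'
  have y1 := (sum_eq_zero_iff_of_nonneg nU).1 zU i hi
  have y2 := (sum_eq_zero_iff_of_nonneg (fun j hj =>
    (keyij 1 (Or.inl rfl) i j (by rw [one_mul]; exact (mU i).1 hi)
      (by rw [one_mul]; exact (mU' j).1 hj)).1)).1 y1 j hj
  have y3 := (keyij 1 (Or.inl rfl) i j (by rw [one_mul]; exact (mU i).1 hi)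
      (by rw [one_mul]; exact (mU' j).1 hj)).2 y2
  have w1 := (sum_eq_zero_iff_of_nonneg nD).1 zD i₂ hi₂
  have w2 := (sum_eq_zero_iff_of_nonneg (fun j hj =>
    (keyij (-1) (Or.inr rfl) i₂ j (by linarith [(mD i₂).1 hi₂])
      (by linarith [(mD' j).1 hj])).1)).1 w1 j₂ hj₂
  have w3 := (keyij (-1) (Or.inr rfl) i₂ j₂ (by linarith [(mD i₂).1 hi₂])
      (by linarith [(mD' j₂).1 hj₂])).2 w2
  refine ⟨⟨⟨θ i, hθa i, hθb i, ?_⟩, ⟨θ i₂, hθa i₂, hθb i₂, ?_⟩⟩,
    ⟨⟨θ' j, hθc j, hθd j, ?_⟩, ⟨θ' j₂, hθc j₂, hθd j₂, ?_⟩⟩⟩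
  · have := hx i; rwa [y3.1] at this
  · have := hx i₂; rwa [w3.1] at this
  · have := hx' j; rwa [y3.2] at this
  · have := hx' j₂; rwa [w3.2] at this

end Pool.Agent.H165.HW
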